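import Pool.Agent.Helper26.MCE.GoalsA
import Pool.Agent.Helper52.MC.LemA

/-!
Project MCE (MP_d8224a_co): the cleaning lemma `G_CL`.
-/

namespace Pool.Agent.Helper24.MCE

open Finset Pool.Agent.Helper87.MC Pool.Agent.Helper26.MCE Pool.Agent.Helper52.MC

section
variable {G : Type} [AddCommGroup G] [Fintype G]

theorem mass_mono (μ : G → ℝ) (hμ : ∀ w, 0 ≤ μ w) {Λ Λ' : AddSubgroup G} (h : Λ ≤ Λ') :
    mass μ Λ ≤ mass μ Λ' := by
  classical
  unfold mass
  refine Finset.sum_le_sum fun w _ => ?_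
  by_cases h1 : w ∈ Λ
  · rw [if_pos h1, if_pos (h h1)]
  · rw [if_neg h1]
    by_cases h2 : w ∈ Λ'
    · rw [if_pos h2]; exact hμ w
    · rw [if_neg h2]

theorem sum_TT (ν : G → ℝ) (R : Finset G) : ∑ z, TT ν R z = (∑ w, ν w) * R.card := by
  classical
  unfold TT
  rw [Finset.sum_comm, Finset.sum_mul]
  refine Finset.sum_congr rfl fun w _ => ?_
  have h := Equiv.sum_comp (Equiv.subRight w) (fun x => if x ∈ R then ν w else 0)
  simp only [Equiv.subRight_apply] at h
  rw [h, ← Finset.sum_filter, Finset.sum_const, nsmul_eq_mul, mul_comm]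
  congr 2
  simp

theorem sum_TT_in (ν : G → ℝ) (R : Finset G) :
    ∑ z ∈ R, TT ν R z = ∑ w, ν w * (rr R w : ℝ) := by
  classical
  unfold TT
  rw [Finset.sum_comm]
  refine Finset.sum_congr rfl fun w _ => ?_
  rw [rr_eq]
  have h := Equiv.sum_comp (Equiv.subRight w) (fun x => ind R x * ind R (x + w))
  simp only [Equiv.subRight_apply] at h
  rw [← h, Finset.mul_sum]
  have h2 : ∑ z ∈ R, (if z - w ∈ R then ν w else 0)
      = ∑ z, (if z ∈ R then (if z - w ∈ R then ν w else 0) else 0) := by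
    rw [Finset.sum_ite_mem, Finset.univ_inter]
  rw [h2]
  refine Finset.sum_congr rfl fun z _ => ?_
  have h3 : z - w + w = z := by abel
  rw [h3]
  unfold ind
  by_cases h1 : z ∈ R <;> by_cases h4 : z - w ∈ R <;> simp [h1, h4]

open Classical in
theorem card_coset (Λ : AddSubgroup G) (x : G) :
    ((univ.filter fun z : G => z - x ∈ Λ).card : ℝ) = Nat.card Λ := by
  classical
  have h : (univ.filter fun z : G => z - x ∈ Λ).card = (univ.filter fun z : G => z ∈ Λ).card := by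
    refine Finset.card_bij (fun z _ => z - x) ?_ ?_ ?_
    · intro z hz
      simpa using hz
    · intro a _ b _ hab
      exact sub_left_injective hab
    · intro b hb
      refine ⟨b + x, ?_, ?_⟩
      · simpa using hb
      · abel
  have h2 : Nat.card Λ = (univ.filter fun z : G => z ∈ Λ).card := by
    rw [Nat.card_eq_fintype_card, Fintype.card_subtype]
  rw [h2]
  exact_mod_cast h

/-- The estimate for one fibre. -/
theorem fibre (h1 : G_LA) (μ : G → ℝ) (ρ m : ℝ) (ℓ : ℕ) (E : Finset G) (P Λ : AddSubgroup G)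
    (hμ : ∀ w, 0 ≤ μ w) (hρ : 0 < ρ) (hℓ : 1 ≤ ℓ) (hcard : Fintype.card G ≤ 2 ^ ℓ)
    (hE : ∀ z, z ∉ E → TT μ E z ≤ ρ) (hPΛ : P ≤ Λ) (hper : Per E P)
    (hm : m = mass μ Λ) (hm0 : 24 * ρ * ℓ * (1 + ℓ) ≤ m)
    (hmax : ∀ Λ' : AddSubgroup G, P ≤ Λ' → Λ' ≤ Λ → Λ' ≠ Λ →
      mass μ Λ' ≤ (1 - 3 * (1 / (6 * (ℓ : ℝ)))) * m)
    (x : G) (hx : NF E Λ x) :
    ((fib E Λ x).card : ℝ) * m ≤ 6 * ρ * ℓ * Nat.card Λ := by
  classical
  have hℓr : (1 : ℝ) ≤ ℓ := by exact_mod_cast hℓ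
  have hmpos : 0 < m := by
    have : 0 < 24 * ρ * ℓ * (1 + ℓ) := by positivity
    linarith
  set e : ℝ := 1 / (6 * (ℓ : ℝ)) with he
  have he0 : 0 < e := by positivity
  have he1 : e ≤ 1 / 6 := by
    rw [he]
    apply one_div_le_one_div_of_le (by norm_num)
    linarith
  have heℓ : e * (6 * ℓ) = 1 := by
    rw [he]; field_simp
  set R := fib E Λ x with hR
  by_cases hRne : R.Nonempty
  swap
  · rw [Finset.not_nonempty_iff_eq_empty] at hRne
    rw [hRne]
    simp
    positivity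
  have hmemR : ∀ z, z ∈ R ↔ z ∈ E ∧ z - x ∈ Λ := by
    intro z
    rw [hR]
    unfold fib
    simp
  have hRpos : (0 : ℝ) < R.card := by exact_mod_cast Finset.card_pos.2 hRne
  set ν : G → ℝ := fun w => if w ∈ Λ then μ w else 0 with hν
  have hν0 : ∀ w, 0 ≤ ν w := by
    intro w
    simp only [hν]
    split_ifs
    · exact hμ w
    · exact le_rfl
  have hνsum : ∑ w, ν w = m := by
    rw [hm]
    unfold mass
    refine Finset.sum_congr rfl fun w _ => ?_
    simp only [hν]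
  have hTT : ∀ z, z ∉ R → TT ν R z ≤ ρ := by
    intro z hz
    by_cases hzx : z - x ∈ Λ
    · have hzE : z ∉ E := fun h => hz ((hmemR z).2 ⟨h, hzx⟩)
      refine le_trans ?_ (hE z hzE)
      unfold TT
      refine Finset.sum_le_sum fun w _ => ?_
      by_cases h2 : z - w ∈ R
      · have h3 : z - w ∈ E := ((hmemR _).1 h2).1
        rw [if_pos h2, if_pos h3]
        simp only [hν]
        split_ifs
        · exact le_rfl
        · exact hμ w
      · rw [if_neg h2]
        split_ifs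
        · exact hμ w
        · exact le_rfl
    · have : TT ν R z = 0 := by
        unfold TT
        refine Finset.sum_eq_zero fun w _ => ?_
        by_cases h2 : z - w ∈ R
        · rw [if_pos h2]
          simp only [hν]
          rw [if_neg]
          intro h3
          apply hzx
          have h4 : z - w - x ∈ Λ := ((hmemR _).1 h2).2
          have h5 : z - x = (z - w - x) + w := by abel
          rw [h5]
          exact Λ.add_mem h4 h3
        · rw [if_neg h2]
      rw [this]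
      exact hρ.le
  have hTT0 : ∀ z, z ∉ R → ¬ (z - x ∈ Λ) → TT ν R z = 0 := by
    intro z hz hzx
    unfold TT
    refine Finset.sum_eq_zero fun w _ => ?_
    by_cases h2 : z - w ∈ R
    · rw [if_pos h2]
      simp only [hν]
      rw [if_neg]
      intro h3
      apply hzx
      have h4 : z - w - x ∈ Λ := ((hmemR _).1 h2).2
      have h5 : z - x = (z - w - x) + w := by abel
      rw [h5]
      exact Λ.add_mem h4 h3
    · rw [if_neg h2]
  have hper2 : ∀ (Λ' : AddSubgroup G) (y : G), (∀ h ∈ Λ', y + h ∈ R) →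
      (∑ w, if w ∈ Λ' then ν w else 0) ≤ (1 - 3 * e) * m := by
    intro Λ' y hy
    have hyR : y ∈ R := by
      have := hy 0 Λ'.zero_mem
      simpa using this
    have hyE : y ∈ E := ((hmemR y).1 hyR).1
    have hyx : y - x ∈ Λ := ((hmemR y).1 hyR).2
    have hΛ' : Λ' ≤ Λ := by
      intro h hh
      have h2 := ((hmemR _).1 (hy h hh)).2
      have h3 : h = (y + h - x) - (y - x) := by abel
      rw [h3]
      exact Λ.sub_mem h2 hyx
    have hsup : Λ' ⊔ P ≤ Λ := sup_le hΛ' hPΛ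
    have hy2 : ∀ h ∈ Λ' ⊔ P, y + h ∈ E := by
      intro h hh
      obtain ⟨a, ha, b, hb, rfl⟩ := AddSubgroup.mem_sup.1 hh
      have h2 := ((hmemR _).1 (hy a ha)).1
      have h3 := hper _ h2 b hb
      have h4 : y + (a + b) = y + a + b := by abel
      rw [h4]
      exact h3
    have hne : Λ' ⊔ P ≠ Λ := by
      intro heq
      obtain ⟨h, hh, hxh⟩ := hx
      apply hxh
      have h5 : x + h - y ∈ Λ := by
        have h6 : x + h - y = h - (y - x) := by abel
        rw [h6]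
        exact Λ.sub_mem hh hyx
      have h7 := hy2 (x + h - y) (by rw [heq]; exact h5)
      have h8 : y + (x + h - y) = x + h := by abel
      rw [h8] at h7
      exact h7
    have h9 := hmax (Λ' ⊔ P) le_sup_right hsup hne
    refine le_trans ?_ h9
    refine le_trans ?_ (mass_mono μ hμ (le_sup_left : Λ' ≤ Λ' ⊔ P))
    unfold mass
    refine Finset.sum_le_sum fun w _ => ?_
    by_cases h2 : w ∈ Λ'
    · rw [if_pos h2, if_pos h2]
      simp only [hν]
      rw [if_pos (hΛ' h2)]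
    · rw [if_neg h2, if_neg h2]
  have hA := h1 G ν ρ ((1 - 3 * e) * m) univ R hν0 hρ hRne hTT (by
    intro Λ' y hy
    have := hper2 Λ' y hy
    refine le_trans (le_of_eq ?_) this
    refine Finset.sum_congr rfl fun w _ => ?_
    congr)
  rw [hνsum] at hA
  set A : ℝ := ∑ w, ν w * ((rr R w : ℝ) / R.card) with hAdef
  have hA0 : 0 ≤ A := by
    rw [hAdef]
    refine Finset.sum_nonneg fun w _ => ?_
    have := hν0 w
    positivity
  have hlog : Real.log R.card ≤ ℓ := by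
    have h2 : (R.card : ℝ) ≤ 2 ^ ℓ := by
      have h3 : R.card ≤ Fintype.card G := Finset.card_le_univ R
      exact_mod_cast h3.trans hcard
    have h4 : Real.log R.card ≤ Real.log (2 ^ ℓ) := Real.log_le_log hRpos h2
    rw [Real.log_pow] at h4
    have h5 : Real.log 2 ≤ 1 := by
      have := Real.log_two_lt_d9
      linarith
    have h6 : (ℓ : ℝ) * Real.log 2 ≤ ℓ * 1 := by
      apply mul_le_mul_of_nonneg_left h5
      positivity
    linarith
  have hb1 : 4 * ρ * (1 + Real.log R.card) ≤ e * m := by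
    have h2 : 4 * ρ * (1 + Real.log R.card) ≤ 4 * ρ * (1 + ℓ) := by
      apply mul_le_mul_of_nonneg_left _ (by positivity)
      linarith
    have h3 : e * (24 * ρ * ℓ * (1 + ℓ)) ≤ e * m := mul_le_mul_of_nonneg_left hm0 he0.le
    have h4 : e * (24 * ρ * ℓ * (1 + ℓ)) = 4 * ρ * (1 + ℓ) * (e * (6 * ℓ)) := by ring
    rw [h4, heℓ] at h3
    linarith
  have hA2 : A ≤ (1 - e) * m := by
    have h2 : A ^ 2 ≤ ((1 - e) * m) ^ 2 := by
      have h3 : m * ((1 - 3 * e) * m + 4 * ρ * (1 + Real.log R.card))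
          ≤ m * ((1 - 3 * e) * m + e * m) := by
        apply mul_le_mul_of_nonneg_left _ hmpos.le
        linarith
      have h4 : m * ((1 - 3 * e) * m + e * m) ≤ ((1 - e) * m) ^ 2 := by
        have : ((1 - e) * m) ^ 2 - m * ((1 - 3 * e) * m + e * m) = (e * m) ^ 2 := by ring
        nlinarith [sq_nonneg (e * m)]
      linarith
    have h5 : 0 ≤ (1 - e) * m := by
      apply mul_nonneg _ hmpos.le
      linarith
    exact le_trans (le_abs_self A) (abs_le_of_sq_le_sq h2 h5)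
  have hARm : A * R.card = ∑ z ∈ R, TT ν R z := by
    rw [sum_TT_in, hAdef, Finset.sum_mul]
    refine Finset.sum_congr rfl fun w _ => ?_
    field_simp
  have hout : ∑ z ∈ univ \ R, TT ν R z ≤ ρ * Nat.card Λ := by
    have h2 : ∑ z ∈ univ \ R, TT ν R z ≤ ∑ z ∈ univ \ R, (if z - x ∈ Λ then ρ else 0) := by
      refine Finset.sum_le_sum fun z hz => ?_
      have hzR : z ∉ R := (Finset.mem_sdiff.1 hz).2
      by_cases h3 : z - x ∈ Λ
      · rw [if_pos h3]; exact hTT z hzR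
      · rw [if_neg h3, hTT0 z hzR h3]
    have h3 : ∑ z ∈ univ \ R, (if z - x ∈ Λ then ρ else 0)
        ≤ ∑ z : G, (if z - x ∈ Λ then ρ else 0) := by
      apply Finset.sum_le_sum_of_subset_of_nonneg (Finset.sdiff_subset)
      intro z _ _
      split_ifs
      · exact hρ.le
      · exact le_rfl
    have h4 : ∑ z : G, (if z - x ∈ Λ then ρ else 0) = ρ * Nat.card Λ := by
      rw [← Finset.sum_filter, Finset.sum_const, nsmul_eq_mul, mul_comm]
      congr 1
      exact card_coset Λ x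
    linarith
  have htot : ∑ z ∈ univ \ R, TT ν R z + ∑ z ∈ R, TT ν R z = m * R.card := by
    rw [Finset.sum_sdiff (Finset.subset_univ R), sum_TT, hνsum]
  have hfin : e * m * R.card ≤ ρ * Nat.card Λ := by
    have h2 : (m - A) * R.card ≤ ρ * Nat.card Λ := by
      have : (m - A) * R.card = ∑ z ∈ univ \ R, TT ν R z := by
        rw [sub_mul, hARm, ← htot]; ring
      linarith
    have h3 : e * m * R.card ≤ (m - A) * R.card := by
      apply mul_le_mul_of_nonneg_right _ hRpos.le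
      linarith
    linarith
  have h7 : 6 * (ℓ : ℝ) * (e * m * R.card) ≤ 6 * ℓ * (ρ * Nat.card Λ) :=
    mul_le_mul_of_nonneg_left hfin (by positivity)
  have h8 : 6 * (ℓ : ℝ) * (e * m * R.card) = (e * (6 * ℓ)) * (R.card * m) := by ring
  rw [h8, heℓ] at h7
  linarith

end

/-- **CL**. -/
theorem goalCL (h1 : G_LA) : G_CL := by
  intro G _ _ μ ρ κ ℓ E P Λ₀ hμ hρ hκ hℓ hcard hE hPΛ₀ hper hmass hκ2
  classical
  have hℓr : (1 : ℝ) ≤ ℓ := by exact_mod_cast hℓ
  set e : ℝ := 1 / (6 * (ℓ : ℝ)) with he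
  have he0 : 0 < e := by positivity
  have he1 : e ≤ 1 / 6 := by
    rw [he]
    apply one_div_le_one_div_of_le (by norm_num)
    linarith
  have heℓ : e * (6 * ℓ) = 1 := by
    rw [he]; field_simp
  have hq0 : 0 ≤ 1 - 3 * e := by linarith
  -- the pairs
  set Q : ℕ → Prop := fun j => ∃ Λ : AddSubgroup G, P ≤ Λ ∧ Λ ≤ Λ₀ ∧
    2 ^ j * Nat.card Λ ≤ Nat.card Λ₀ ∧ κ * (1 - 3 * e) ^ j ≤ mass μ Λ with hQ
  have hQ0 : Q 0 := ⟨Λ₀, hPΛ₀, le_rfl, by simp, by simpa using hmass⟩
  have hbound : ∀ j, Q j → j ≤ ℓ := by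
    rintro j ⟨Λ, _, _, h3, _⟩
    have h4 : 1 ≤ Nat.card Λ := Nat.card_pos
    have h5 : Nat.card Λ₀ ≤ Fintype.card G := by
      rw [← Nat.card_eq_fintype_card]
      exact Nat.card_le_card_of_injective (fun a : Λ₀ => (a : G)) Subtype.val_injective
    have h6 : 2 ^ j ≤ 2 ^ ℓ := by
      calc 2 ^ j = 2 ^ j * 1 := by ring
        _ ≤ 2 ^ j * Nat.card Λ := Nat.mul_le_mul_left _ h4
        _ ≤ 2 ^ ℓ := h3.trans (h5.trans hcard)
    exact (Nat.pow_le_pow_iff_right (by norm_num)).1 h6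
  obtain ⟨j, hj, hj1⟩ : ∃ j, Q j ∧ ¬ Q (j + 1) := by
    by_contra hcon
    push Not at hcon
    have hall : ∀ j, Q j := by
      intro j
      induction j with
      | zero => exact hQ0
      | succ j ih => exact hcon j ih
    have := hbound (ℓ + 1) (hall (ℓ + 1))
    omega
  have hjℓ : j ≤ ℓ := hbound j hj
  obtain ⟨Λ, hPΛ, hΛΛ₀, hΛc, hΛm⟩ := hj
  have hbern : (1 : ℝ) / 2 ≤ (1 - 3 * e) ^ j := by
    have h2 := one_add_mul_le_pow (a := -(3 * e)) (by linarith) j
    have h3 : (1 : ℝ) + -(3 * e) = 1 - 3 * e := by ring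
    rw [h3] at h2
    refine le_trans ?_ h2
    have h4 : (j : ℝ) ≤ ℓ := by exact_mod_cast hjℓ
    have h5 : (j : ℝ) * (3 * e) ≤ ℓ * (3 * e) := mul_le_mul_of_nonneg_right h4 (by positivity)
    have h6 : (ℓ : ℝ) * (3 * e) = (e * (6 * ℓ)) / 2 := by ring
    rw [h6, heℓ] at h5
    linarith
  have hmκ : κ / 2 ≤ mass μ Λ := by
    have : κ * (1 / 2) ≤ κ * (1 - 3 * e) ^ j := mul_le_mul_of_nonneg_left hbern hκ.le
    linarith
  have hmpos : 0 < mass μ Λ := by linarith
  refine ⟨Λ, hPΛ, hΛΛ₀, hmκ, ?_⟩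
  intro x hx
  have hmax : ∀ Λ' : AddSubgroup G, P ≤ Λ' → Λ' ≤ Λ → Λ' ≠ Λ →
      mass μ Λ' ≤ (1 - 3 * e) * mass μ Λ := by
    intro Λ' hP' hΛ' hne
    have hdvd : Nat.card Λ' ∣ Nat.card Λ := AddSubgroup.card_dvd_of_le hΛ'
    obtain ⟨c, hc⟩ := hdvd
    have hcne : c ≠ 1 := by
      intro h
      rw [h, mul_one] at hc
      exact hne (AddSubgroup.eq_of_le_of_card_ge hΛ' hc.le)
    have hc0 : c ≠ 0 := by
      intro h
      rw [h, mul_zero] at hc
      have : 0 < Nat.card Λ := Nat.card_pos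
      omega
    have hc2 : 2 ≤ c := by omega
    have h2 : 2 * Nat.card Λ' ≤ Nat.card Λ := by
      rw [hc, mul_comm 2]
      exact Nat.mul_le_mul_left _ hc2
    by_contra hcon
    push Not at hcon
    apply hj1
    refine ⟨Λ', hP', hΛ'.trans hΛΛ₀, ?_, ?_⟩
    · calc 2 ^ (j + 1) * Nat.card Λ' = 2 ^ j * (2 * Nat.card Λ') := by ring
        _ ≤ 2 ^ j * Nat.card Λ := Nat.mul_le_mul_left _ h2
        _ ≤ _ := hΛc
    · have h3 : (1 - 3 * e) * (κ * (1 - 3 * e) ^ j) ≤ (1 - 3 * e) * mass μ Λ :=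
        mul_le_mul_of_nonneg_left hΛm hq0
      calc κ * (1 - 3 * e) ^ (j + 1) = (1 - 3 * e) * (κ * (1 - 3 * e) ^ j) := by ring
        _ ≤ _ := h3
        _ ≤ _ := hcon.le
  have hm0 : 24 * ρ * ℓ * (1 + ℓ) ≤ mass μ Λ := by linarith
  have hf := fibre h1 μ ρ (mass μ Λ) ℓ E P Λ hμ hρ hℓ hcard hE hPΛ hper rfl hm0
    (by rw [← he]; exact hmax) x hx
  -- conclusion
  have hf2 : ((fib E Λ x).card : ℝ) * (κ / 2) ≤ 6 * ρ * ℓ * Nat.card Λ :=
    le_trans (mul_le_mul_of_nonneg_left hmκ (by positivity)) hf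
  have h9 : 12 * ρ * ℓ / κ * (Nat.card Λ : ℝ) = 12 * ρ * ℓ * Nat.card Λ / κ := by ring
  rw [h9, le_div_iff₀ hκ]
  linarith

end Pool.Agent.Helper24.MCE

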